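import Mathlib
import Pool.Agent.W711.HT.Stm2
import Pool.Agent.Helper540.Holo

/-!
Critical points of one variable (first part of S_CP, helper711's project HT).
-/

set_option autoImplicit false

namespace Pool.Agent.W293.HT

open Filter Topology Metric Set Pool.Agent.W711.HT
open scoped Real

theorem isOpen_Rc (ρ τ : ℝ) : IsOpen (Rc ρ τ) := by
  have h1 : IsOpen {z : ℂ | |z.re| < ρ} :=
    isOpen_lt (Complex.continuous_re.abs) continuous_const
  have h2 : IsOpen {z : ℂ | |z.im| < τ} :=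
    isOpen_lt (Complex.continuous_im.abs) continuous_const
  exact h1.inter h2

theorem convex_Rc (ρ τ : ℝ) : Convex ℝ (Rc ρ τ) := by
  have h1 : Convex ℝ {z : ℂ | |z.re| < ρ} := by
    have : {z : ℂ | |z.re| < ρ} = Complex.reLm ⁻¹' (Ioo (-ρ) ρ) := by
      ext z; simp [abs_lt]
    rw [this]
    exact (convex_Ioo _ _).linear_preimage _
  have h2 : Convex ℝ {z : ℂ | |z.im| < τ} := by
    have : {z : ℂ | |z.im| < τ} = Complex.imLm ⁻¹' (Ioo (-τ) τ) := by
      ext z; simp [abs_lt]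
    rw [this]
    exact (convex_Ioo _ _).linear_preimage _
  exact h1.inter h2

theorem neg_mem_Rc {ρ τ : ℝ} {z : ℂ} (hz : z ∈ Rc ρ τ) : -z ∈ Rc ρ τ := by
  refine ⟨?_, ?_⟩
  · rw [Complex.neg_re, abs_neg]; exact hz.1
  · rw [Complex.neg_im, abs_neg]; exact hz.2

theorem zero_mem_Rc {ρ τ : ℝ} (hρ : 0 < ρ) (hτ : 0 < τ) : (0 : ℂ) ∈ Rc ρ τ := by
  refine ⟨?_, ?_⟩
  · simpa using hρ
  · simpa using hτ

theorem Rc_mono {ρ τ ρ' τ' : ℝ} (h1 : ρ ≤ ρ') (h2 : τ ≤ τ') : Rc ρ τ ⊆ Rc ρ' τ' :=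
  fun _ hz => ⟨hz.1.trans_le h1, hz.2.trans_le h2⟩

theorem mem_Rc_of_norm {ρ τ : ℝ} (h : τ ≤ ρ) {z : ℂ} (hz : ‖z‖ < τ) : z ∈ Rc ρ τ :=
  ⟨(Complex.abs_re_le_norm z).trans_lt (hz.trans_le h), (Complex.abs_im_le_norm z).trans_lt hz⟩

theorem mem_Rc3 {ρ τ : ℝ} (h : τ ≤ ρ) {z w : ℂ} (hz : z ∈ Rc (2 * ρ) (2 * τ)) (hw : ‖w - z‖ < τ) :
    w ∈ Rc (3 * ρ) (3 * τ) := by
  have h1 := Complex.abs_re_le_norm (w - z)
  have h2 := Complex.abs_im_le_norm (w - z)
  rw [Complex.sub_re] at h1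
  rw [Complex.sub_im] at h2
  have h3 : |w.re| ≤ |w.re - z.re| + |z.re| := by
    have := abs_add_le (w.re - z.re) z.re
    rwa [sub_add_cancel] at this
  have h4 : |w.im| ≤ |w.im - z.im| + |z.im| := by
    have := abs_add_le (w.im - z.im) z.im
    rwa [sub_add_cancel] at this
  refine ⟨?_, ?_⟩
  · linarith [hz.1]
  · linarith [hz.2]

theorem cb_sub {ρ τ : ℝ} (hτ : 0 < τ) (h : τ ≤ ρ) {z : ℂ} (hz : z ∈ Rc (2 * ρ) (2 * τ)) :
    closedBall z (τ / 2) ⊆ Rc (3 * ρ) (3 * τ) := by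
  intro w hw
  rw [mem_closedBall, dist_eq_norm] at hw
  exact mem_Rc3 h hz (by linarith)

/-- Cauchy's estimate for the second derivative -/
theorem cauchy2 {ρ τ B : ℝ} (hτ : 0 < τ) (h : τ ≤ ρ) {g : ℂ → ℂ}
    (hg : DifferentiableOn ℂ g (Rc (3 * ρ) (3 * τ))) (hB : ∀ z ∈ Rc (3 * ρ) (3 * τ), ‖g z‖ ≤ B)
    {z : ℂ} (hz : z ∈ Rc (2 * ρ) (2 * τ)) : ‖deriv (deriv g) z‖ ≤ 8 * B / τ ^ 2 := by
  have hcb := cb_sub hτ h hz
  have h1 := Complex.norm_iteratedDeriv_le_of_forall_mem_sphere_norm_le 2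
    (by positivity : (0 : ℝ) < τ / 2) (hg.diffContOnCl_ball hcb)
    (fun w hw => hB w (hcb (sphere_subset_closedBall hw)))
  rw [iteratedDeriv_succ, iteratedDeriv_one] at h1
  refine h1.trans (le_of_eq ?_)
  have : ((Nat.factorial 2 : ℕ) : ℝ) = 2 := by norm_num [Nat.factorial]
  rw [this]
  field_simp
  ring

/-- the hypotheses on the potential -/
structure GH (ρ τ c C : ℝ) (G : ℂ → ℂ) : Prop where
  an : DifferentiableOn ℂ G (Rc (3 * ρ) (3 * τ))
  ev : ∀ w ∈ Rc (3 * ρ) (3 * τ), G (-w) = G w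
  d2 : ∀ w ∈ Rc (2 * ρ) (2 * τ), (deriv (deriv G) w).re ≤ -c
  d2b : ∀ w ∈ Rc (2 * ρ) (2 * τ), ‖deriv (deriv G) w‖ ≤ C

variable {ρ τ c C : ℝ} {G : ℂ → ℂ}

theorem GH.d0 (hG : GH ρ τ c C G) (hρ : 0 < ρ) (hτ : 0 < τ) : deriv G 0 = 0 := by
  have h0 : (0 : ℂ) ∈ Rc (3 * ρ) (3 * τ) := zero_mem_Rc (by linarith) (by linarith)
  have h1 : (fun w => G (-w)) =ᶠ[𝓝 0] G :=
    Filter.eventuallyEq_of_mem ((isOpen_Rc _ _).mem_nhds h0) hG.ev
  have h2 := h1.deriv_eq
  rw [deriv_comp_neg, neg_zero] at h2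
  have h3 : (2 : ℂ) * deriv G 0 = 0 := by linear_combination -h2
  simpa using h3

theorem GH.da (hG : GH ρ τ c C G) {w : ℂ} (hw : w ∈ Rc (3 * ρ) (3 * τ)) :
    DifferentiableAt ℂ G w := hG.an.differentiableAt ((isOpen_Rc _ _).mem_nhds hw)

theorem GH.dda (hG : GH ρ τ c C G) {w : ℂ} (hw : w ∈ Rc (3 * ρ) (3 * τ)) :
    DifferentiableAt ℂ (deriv G) w :=
  (hG.an.deriv (isOpen_Rc _ _)).differentiableAt ((isOpen_Rc _ _).mem_nhds hw)

theorem GH.lip (hG : GH ρ τ c C G) (hρ : 0 < ρ) (hτ : 0 < τ) {w w' : ℂ}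
    (hw : w ∈ Rc (2 * ρ) (2 * τ)) (hw' : w' ∈ Rc (2 * ρ) (2 * τ)) :
    ‖deriv G w' - deriv G w‖ ≤ C * ‖w' - w‖ :=
  Convex.norm_image_sub_le_of_norm_deriv_le (𝕜 := ℂ)
    (fun x hx => hG.dda (Rc_mono (by linarith) (by linarith) hx)) hG.d2b (convex_Rc _ _) hw hw'

theorem GH.d1 (hG : GH ρ τ c C G) (hρ : 0 < ρ) (hτ : 0 < τ) {w : ℂ}
    (hw : w ∈ Rc (2 * ρ) (2 * τ)) : ‖deriv G w‖ ≤ C * ‖w‖ := by
  have h := hG.lip hρ hτ (zero_mem_Rc (by linarith) (by linarith)) hw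
  rwa [hG.d0 hρ hτ, sub_zero, sub_zero] at h

theorem GH.val (hG : GH ρ τ c C G) (hρ : 0 < ρ) (hτ : 0 < τ) (hC : 0 ≤ C) {w : ℂ}
    (hw : w ∈ Rc (2 * ρ) (2 * τ)) : ‖G w - G 0‖ ≤ C * ‖w‖ ^ 2 := by
  have h := Convex.norm_image_sub_le_of_norm_deriv_le (𝕜 := ℂ) (f := G) (C := C * ‖w‖)
    (s := Rc (2 * ρ) (2 * τ) ∩ closedBall 0 ‖w‖) (x := 0) (y := w)
    (fun x hx => hG.da (Rc_mono (by linarith) (by linarith) hx.1))
    (fun x hx => (hG.d1 hρ hτ hx.1).trans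
      (mul_le_mul_of_nonneg_left (by simpa using hx.2) hC))
    ((convex_Rc _ _).inter (convex_closedBall _ _))
    ⟨zero_mem_Rc (by linarith) (by linarith), mem_closedBall_self (norm_nonneg _)⟩
    ⟨hw, by simp⟩
  rw [sub_zero] at h
  refine h.trans (le_of_eq (by ring))

/-- strictly concave functions at a critical point -/
theorem quad_bound {f f' f'' : ℝ → ℝ} {r c x0 : ℝ}
    (h1 : ∀ x, |x| ≤ r → HasDerivAt f (f' x) x) (h2 : ∀ x, |x| ≤ r → HasDerivAt f' (f'' x) x)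
    (h3 : ∀ x, |x| ≤ r → f'' x ≤ -c) (hx0 : |x0| ≤ r) (h0 : f' x0 = 0) {x : ℝ} (hx : |x| ≤ r) :
    f x ≤ f x0 - c / 2 * (x - x0) ^ 2 := by
  set g : ℝ → ℝ := fun x => f x + c / 2 * (x - x0) ^ 2 with hg
  set g' : ℝ → ℝ := fun x => f' x + c * (x - x0) with hg'
  have e1 : ∀ x, |x| ≤ r → HasDerivAt g (g' x) x := by
    intro x hx
    have h4 : HasDerivAt (fun x : ℝ => c / 2 * (x - x0) ^ 2) (c * (x - x0)) x := by
      have h5 := (((hasDerivAt_id x).sub_const x0).pow 2).const_mul (c / 2)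
      refine h5.congr_deriv ?_
      simp
      ring
    exact (h1 x hx).add h4
  have e2 : ∀ x, |x| ≤ r → HasDerivAt g' (f'' x + c) x := by
    intro x hx
    have h4 : HasDerivAt (fun x : ℝ => c * (x - x0)) c x := by
      have h5 := ((hasDerivAt_id x).sub_const x0).const_mul c
      simpa using h5
    exact (h2 x hx).add h4
  have hIcc : ∀ y, y ∈ Icc (-r) r ↔ |y| ≤ r := fun y => by rw [abs_le]; rfl
  have anti : AntitoneOn g' (Icc (-r) r) := by
    apply antitoneOn_of_deriv_nonpos (convex_Icc _ _)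
    · intro y hy
      exact (e2 y ((hIcc y).1 hy)).continuousAt.continuousWithinAt
    · intro y hy
      exact (e2 y ((hIcc y).1 (interior_subset hy))).differentiableAt.differentiableWithinAt
    · intro y hy
      rw [(e2 y ((hIcc y).1 (interior_subset hy))).deriv]
      linarith [h3 y ((hIcc y).1 (interior_subset hy))]
  have g0 : g' x0 = 0 := by simp [hg', h0]
  have key : g x ≤ g x0 := by
    rcases le_total x0 x with hxx | hxx
    · have hsub : Icc x0 x ⊆ Icc (-r) r := Icc_subset_Icc (abs_le.1 hx0).1 (abs_le.1 hx).2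
      have a : AntitoneOn g (Icc x0 x) := by
        apply antitoneOn_of_deriv_nonpos (convex_Icc _ _)
        · intro y hy
          exact (e1 y ((hIcc y).1 (hsub hy))).continuousAt.continuousWithinAt
        · intro y hy
          exact (e1 y ((hIcc y).1 (hsub (interior_subset hy)))).differentiableAt.differentiableWithinAt
        · intro y hy
          have hy' := interior_subset hy
          rw [(e1 y ((hIcc y).1 (hsub hy'))).deriv, ← g0]
          exact anti ((hIcc _).2 hx0) (hsub hy') hy'.1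
      exact a (left_mem_Icc.2 hxx) (right_mem_Icc.2 hxx) hxx
    · have hsub : Icc x x0 ⊆ Icc (-r) r := Icc_subset_Icc (abs_le.1 hx).1 (abs_le.1 hx0).2
      have a : MonotoneOn g (Icc x x0) := by
        apply monotoneOn_of_deriv_nonneg (convex_Icc _ _)
        · intro y hy
          exact (e1 y ((hIcc y).1 (hsub hy))).continuousAt.continuousWithinAt
        · intro y hy
          exact (e1 y ((hIcc y).1 (hsub (interior_subset hy)))).differentiableAt.differentiableWithinAt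
        · intro y hy
          have hy' := interior_subset hy
          rw [(e1 y ((hIcc y).1 (hsub hy'))).deriv, ← g0]
          exact anti (hsub hy') ((hIcc _).2 hx0) hy'.2
      exact a (left_mem_Icc.2 hxx) (right_mem_Icc.2 hxx) hxx
  have : f x + c / 2 * (x - x0) ^ 2 ≤ f x0 := by simpa [hg] using key
  linarith

/-- derivative of the real part along a horizontal line -/
theorem hasDerivAt_line {Q : ℂ → ℂ} {Q' : ℂ} {x y : ℝ}
    (h : HasDerivAt Q Q' ((x : ℂ) + y * Complex.I)) :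
    HasDerivAt (fun x : ℝ => (Q (x + y * Complex.I)).re) Q'.re x := by
  have h1 : HasDerivAt (fun w : ℂ => Q (w + y * Complex.I)) Q' (x : ℂ) :=
    h.comp_add_const (x : ℂ) (y * Complex.I)
  exact h1.real_of_complex

/-- derivative of the real part along a ray -/
theorem hasDerivAt_ray {Q : ℂ → ℂ} {Q' z v : ℂ} {t : ℝ}
    (h : HasDerivAt Q Q' ((t : ℂ) * z)) :
    HasDerivAt (fun t : ℝ => (Q (t * z) * v).re) (Q' * z * v).re t := by
  have h1 : HasDerivAt (fun w : ℂ => Q (w * z) * v) (Q' * z * v) (t : ℂ) := by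
    have h2 : HasDerivAt (fun w : ℂ => w * z) z (t : ℂ) := by
      simpa using (hasDerivAt_id (t : ℂ)).mul_const z
    exact (HasDerivAt.comp (t : ℂ) h h2).mul_const v
  exact h1.real_of_complex

/-- `Re (G'(z) conj z) ≤ - c |z|^2` -/
theorem GH.conc (hG : GH ρ τ c C G) (hρ : 0 < ρ) (hτ : 0 < τ) {z : ℂ}
    (hz : z ∈ Rc (2 * ρ) (2 * τ)) : (deriv G z * (starRingEnd ℂ) z).re ≤ - c * ‖z‖ ^ 2 := by
  have hseg : ∀ t : ℝ, t ∈ Icc (0 : ℝ) 1 → (t : ℂ) * z ∈ Rc (2 * ρ) (2 * τ) := by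
    intro t ht
    have h0 : (0 : ℂ) ∈ Rc (2 * ρ) (2 * τ) := zero_mem_Rc (by linarith) (by linarith)
    have h1 := (convex_Rc (2 * ρ) (2 * τ)) h0 hz (by linarith [ht.2] : (0 : ℝ) ≤ 1 - t) ht.1
      (by ring)
    simpa using h1
  have hd : ∀ t : ℝ, t ∈ Icc (0 : ℝ) 1 → HasDerivAt
      (fun t : ℝ => (deriv G (t * z) * (starRingEnd ℂ) z).re)
      (deriv (deriv G) (t * z) * z * (starRingEnd ℂ) z).re t := by
    intro t ht
    exact hasDerivAt_ray (hG.dda (Rc_mono (by linarith) (by linarith) (hseg t ht))).hasDerivAt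
  have hb : ∀ t : ℝ, t ∈ Icc (0 : ℝ) 1 →
      (deriv (deriv G) (t * z) * z * (starRingEnd ℂ) z).re ≤ - c * ‖z‖ ^ 2 := by
    intro t ht
    have e1 : deriv (deriv G) (t * z) * z * (starRingEnd ℂ) z =
        deriv (deriv G) (t * z) * ((‖z‖ ^ 2 : ℝ) : ℂ) := by
      rw [mul_assoc, Complex.mul_conj, Complex.normSq_eq_norm_sq]
    rw [e1, Complex.re_mul_ofReal]
    exact mul_le_mul_of_nonneg_right (hG.d2 _ (hseg t ht)) (by positivity)
  have h1 := (convex_Icc (0 : ℝ) 1).image_sub_le_mul_sub_of_deriv_le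
    (f := fun t : ℝ => (deriv G (t * z) * (starRingEnd ℂ) z).re) (C := - c * ‖z‖ ^ 2)
    (fun t ht => (hd t ht).continuousAt.continuousWithinAt)
    (fun t ht => (hd t (interior_subset ht)).differentiableAt.differentiableWithinAt)
    (fun t ht => by
      rw [(hd t (interior_subset ht)).deriv]
      exact hb t (interior_subset ht)) 0 (by simp) 1 (by simp) (by norm_num)
  simp only [Complex.ofReal_one, one_mul, Complex.ofReal_zero, zero_mul, sub_zero, mul_one,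
    hG.d0 hρ hτ, Complex.zero_re] at h1
  exact h1

end Pool.Agent.W293.HT
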