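import Mathlib
import Pool.Agent.W293.HT.CP1

/-!
Critical points of one variable (second part of S_CP, helper711's project HT).
-/

set_option autoImplicit false

namespace Pool.Agent.W293.HT

open Filter Topology Metric Set Pool.Agent.W711.HT
open scoped Real

variable {ρ τ c C : ℝ} {G : ℂ → ℂ}

/-- derivative of the potential -/
theorem hasDerivAt_qq (a : ℤ) {G : ℂ → ℂ} {w : ℂ} (h : DifferentiableAt ℂ G w) :
    HasDerivAt (qq a G) (Complex.I * a * w / (2 * π) + Complex.I + deriv G w) w := by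
  unfold qq
  have hpi : (π : ℂ) ≠ 0 := by exact_mod_cast Real.pi_ne_zero
  have h1 : HasDerivAt (fun w : ℂ => Complex.I * a * w ^ 2 / (4 * π))
      (Complex.I * a * w / (2 * π)) w := by
    have h2 := (((hasDerivAt_id w).pow 2).const_mul (Complex.I * a)).div_const (4 * π)
    refine h2.congr_deriv ?_
    simp only [id, Nat.cast_ofNat]
    field_simp
    ring
  have h3 : HasDerivAt (fun w : ℂ => Complex.I * w) Complex.I w := by
    simpa using (hasDerivAt_id w).const_mul Complex.I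
  exact (h1.add h3).add h.hasDerivAt

theorem GH.deriv_qq (hG : GH ρ τ c C G) (a : ℤ) {w : ℂ} (hw : w ∈ Rc (3 * ρ) (3 * τ)) :
    deriv (qq a G) w = Complex.I * a * w / (2 * π) + Complex.I + deriv G w :=
  (hasDerivAt_qq a (hG.da hw)).deriv

theorem GH.hasDerivAt_dqq (hG : GH ρ τ c C G) (a : ℤ) {w : ℂ} (hw : w ∈ Rc (3 * ρ) (3 * τ)) :
    HasDerivAt (fun w => Complex.I * a * w / (2 * π) + Complex.I + deriv G w)
      (Complex.I * a / (2 * π) + deriv (deriv G) w) w := by
  have h2 : HasDerivAt (fun w : ℂ => Complex.I * a * w / (2 * π)) (Complex.I * a / (2 * π)) w := by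
    have h3 := ((hasDerivAt_id w).const_mul (Complex.I * a)).div_const (2 * π)
    simpa using h3
  exact (h2.add_const Complex.I).add (hG.dda hw).hasDerivAt

theorem GH.deriv2_qq (hG : GH ρ τ c C G) (a : ℤ) {w : ℂ} (hw : w ∈ Rc (3 * ρ) (3 * τ)) :
    deriv (deriv (qq a G)) w = Complex.I * a / (2 * π) + deriv (deriv G) w := by
  have h1 : deriv (qq a G) =ᶠ[𝓝 w]
      fun w => Complex.I * a * w / (2 * π) + Complex.I + deriv G w :=
    Filter.eventuallyEq_of_mem ((isOpen_Rc _ _).mem_nhds hw) (fun x hx => hG.deriv_qq a hx)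
  rw [h1.deriv_eq, (hG.hasDerivAt_dqq a hw).deriv]

theorem re_I_a (a : ℤ) : (Complex.I * a / (2 * π) : ℂ).re = 0 := by
  have : (Complex.I * a / (2 * π) : ℂ) = Complex.I * ((a / (2 * π) : ℝ) : ℂ) := by
    push_cast; ring
  rw [this, mul_comm, Complex.re_ofReal_mul, Complex.I_re, mul_zero]

theorem crit_props (hG : GH ρ τ c C G) (hτ : 0 < τ) (hτρ : τ ≤ ρ) (hρ : ρ ≤ 1 / 4) (hc : 0 < c)
    (hC : 1 ≤ C) (a : ℤ) (A : ℝ) (hA : A = a / (2 * π)) (hA1 : 4 * C ≤ |A|) (hA2 : 4 / |A| < τ)
    (hA3 : (4 * C + 10) / |A| < c * ρ ^ 2) (z : ℂ) (hz : ‖z‖ ≤ 2 / |A|)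
    (hcr : Complex.I * A * z + Complex.I + deriv G z = 0) :
    z ∈ Rc ρ τ ∧ c / (4 * A ^ 2) ≤ z.im ∧ ‖z + 1 / A‖ ≤ 2 * C / A ^ 2 ∧ SAD a G ρ z ∧
      ‖qq a G z - G 0‖ ≤ 5 / |A| := by
  have hρ0 : 0 < ρ := hτ.trans_le hτρ
  have hA0 : 0 < |A| := by linarith
  have hAne : A ≠ 0 := abs_pos.1 hA0
  have hAC : (A : ℂ) ≠ 0 := by exact_mod_cast hAne
  have hAsq : A ^ 2 = |A| ^ 2 := (sq_abs A).symm
  have h24 : 2 / |A| ≤ 4 / |A| := by gcongr; norm_num
  have hzτ : ‖z‖ < τ := by linarith
  have hz1 : z ∈ Rc ρ τ := mem_Rc_of_norm hτρ hzτ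
  have hz2 : z ∈ Rc (2 * ρ) (2 * τ) := Rc_mono (by linarith) (by linarith) hz1
  have hz3 : z ∈ Rc (3 * ρ) (3 * τ) := Rc_mono (by linarith) (by linarith) hz1
  have hd := hG.d1 hρ0 hτ hz2
  have hI2 : Complex.I * Complex.I = -1 := Complex.I_mul_I
  -- distance to -1/A
  have e1 : z + 1 / A = Complex.I / A * deriv G z := by
    have h1 : deriv G z = -(Complex.I * A * z + Complex.I) := by linear_combination hcr
    rw [h1]
    field_simp
    linear_combination (A * z + 1) * hI2
  have hcl : ‖z + 1 / A‖ ≤ 2 * C / A ^ 2 := by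
    rw [e1, norm_mul, norm_div, Complex.norm_I, Complex.norm_real, Real.norm_eq_abs]
    calc 1 / |A| * ‖deriv G z‖ ≤ 1 / |A| * (C * (2 / |A|)) := by
          apply mul_le_mul_of_nonneg_left _ (by positivity)
          exact hd.trans (mul_le_mul_of_nonneg_left hz (by linarith))
      _ = 2 * C / A ^ 2 := by rw [hAsq]; field_simp
  -- lower bound of |z|
  have hzlow : 1 / (2 * |A|) ≤ ‖z‖ := by
    have h1 : ‖(1 / A : ℂ)‖ ≤ ‖z + 1 / A‖ + ‖z‖ := by
      have := norm_sub_le (z + 1 / A) z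
      simpa using this
    rw [norm_div, norm_one, Complex.norm_real, Real.norm_eq_abs] at h1
    have h2 : 2 * C / A ^ 2 ≤ 1 / (2 * |A|) := by
      rw [hAsq, div_le_div_iff₀ (by positivity) (by positivity)]
      nlinarith
    have h3 : 1 / |A| = 1 / (2 * |A|) + 1 / (2 * |A|) := by field_simp; norm_num
    linarith
  -- imaginary part
  have him : z.im = -(deriv G z * (starRingEnd ℂ) z).re := by
    have h1 : (Complex.I * A * z + Complex.I + deriv G z) * (starRingEnd ℂ) z = 0 := by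
      rw [hcr, zero_mul]
    have h2 := congrArg Complex.re h1
    simp only [Complex.mul_re, Complex.add_re, Complex.add_im, Complex.mul_im, Complex.I_re,
      Complex.I_im, Complex.ofReal_re, Complex.ofReal_im, Complex.conj_re, Complex.conj_im,
      Complex.zero_re] at h2 ⊢
    nlinarith [h2]
  have hconc := hG.conc hρ0 hτ hz2
  have hzn : 0 < ‖z‖ := lt_of_lt_of_le (by positivity) hzlow
  have him1 : c / (4 * A ^ 2) ≤ z.im := by
    have h1 : c * (1 / (2 * |A|)) ^ 2 ≤ c * ‖z‖ ^ 2 := by gcongr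
    have h2 : c * (1 / (2 * |A|)) ^ 2 = c / (4 * A ^ 2) := by rw [hAsq]; field_simp; norm_num
    rw [h2] at h1
    linarith
  have himpos : 0 < z.im := lt_of_lt_of_le (by positivity) him1
  have himle : z.im ≤ C * ‖z‖ ^ 2 := by
    rw [him]
    have h1 := Complex.abs_re_le_norm (deriv G z * (starRingEnd ℂ) z)
    rw [norm_mul, Complex.norm_conj] at h1
    have h2 := neg_abs_le (deriv G z * (starRingEnd ℂ) z).re
    have h3 : ‖deriv G z‖ * ‖z‖ ≤ C * ‖z‖ * ‖z‖ := by gcongr
    nlinarith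
  have hzsq : ‖z‖ ^ 2 ≤ 4 / |A| ^ 2 := by
    calc ‖z‖ ^ 2 ≤ (2 / |A|) ^ 2 := by gcongr
      _ = 4 / |A| ^ 2 := by rw [div_pow]; norm_num
  have himA : z.im ≤ 4 * C / |A| ^ 2 := by
    calc z.im ≤ C * ‖z‖ ^ 2 := himle
      _ ≤ C * (4 / |A| ^ 2) := by gcongr
      _ = 4 * C / |A| ^ 2 := by ring
  have himA1 : z.im ≤ 1 / |A| := by
    refine himA.trans ?_
    rw [div_le_div_iff₀ (by positivity) (by positivity)]
    nlinarith
  -- value
  have hval : ‖qq a G z - G 0‖ ≤ 5 / |A| := by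
    have e2 : qq a G z - G 0 = Complex.I * A * z ^ 2 / 2 + Complex.I * z + (G z - G 0) := by
      unfold qq
      rw [hA]
      push_cast
      ring
    rw [e2]
    have n1 : ‖Complex.I * A * z ^ 2 / 2‖ ≤ 2 / |A| := by
      rw [norm_div, norm_mul, norm_mul, Complex.norm_I, Complex.norm_real, Real.norm_eq_abs,
        norm_pow, one_mul, Complex.norm_ofNat]
      calc |A| * ‖z‖ ^ 2 / 2 ≤ |A| * (4 / |A| ^ 2) / 2 := by gcongr
        _ = 2 / |A| := by field_simp; norm_num
    have n2 : ‖Complex.I * z‖ ≤ 2 / |A| := by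
      rw [norm_mul, Complex.norm_I, one_mul]; exact hz
    have n3 : ‖G z - G 0‖ ≤ 1 / |A| := by
      refine (hG.val hρ0 hτ (by linarith) hz2).trans ?_
      calc C * ‖z‖ ^ 2 ≤ C * (4 / |A| ^ 2) := by gcongr
        _ = 4 * C / |A| ^ 2 := by ring
        _ ≤ 1 / |A| := by
            rw [div_le_div_iff₀ (by positivity) (by positivity)]
            nlinarith
    calc _ ≤ ‖Complex.I * A * z ^ 2 / 2 + Complex.I * z‖ + ‖G z - G 0‖ := norm_add_le _ _
      _ ≤ ‖Complex.I * A * z ^ 2 / 2‖ + ‖Complex.I * z‖ + ‖G z - G 0‖ := by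
          gcongr; exact norm_add_le _ _
      _ ≤ 2 / |A| + 2 / |A| + 1 / |A| := by gcongr
      _ = 5 / |A| := by ring
  have hcr' : Complex.I * a * z / (2 * π) + Complex.I + deriv G z = 0 := by
    rw [← hcr, hA]
    push_cast
    ring
  -- points on the horizontal line
  have hline : ∀ x y : ℝ, |x| ≤ ρ → 0 ≤ y → y ≤ z.im →
      (x : ℂ) + y * Complex.I ∈ Rc (2 * ρ) (2 * τ) := by
    intro x y hx hy hy'
    refine ⟨?_, ?_⟩
    · simpa using lt_of_le_of_lt hx (by linarith)
    · have h1 : z.im ≤ ‖z‖ := (le_abs_self _).trans (Complex.abs_im_le_norm z)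
      have : |y| < 2 * τ := by rw [abs_of_nonneg hy]; linarith
      simpa using this
  have hre : |z.re| ≤ ρ := hz1.1.le
  have hzri : (z.re : ℂ) + z.im * Complex.I = z := Complex.re_add_im z
  -- the line
  have hL : ∀ x : ℝ, |x| ≤ ρ → (qq a G (x + z.im * Complex.I)).re ≤
      (qq a G z).re - c / 2 * (x - z.re) ^ 2 := by
    intro x hx
    have h1 := quad_bound (f := fun x : ℝ => (qq a G (x + z.im * Complex.I)).re)
      (f' := fun x : ℝ => (Complex.I * a * ((x : ℂ) + z.im * Complex.I) / (2 * π) + Complex.I +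
        deriv G (x + z.im * Complex.I)).re)
      (f'' := fun x : ℝ => (Complex.I * a / (2 * π) +
        deriv (deriv G) (x + z.im * Complex.I)).re) (r := ρ) (c := c) (x0 := z.re)
      (fun x hx => hasDerivAt_line (hasDerivAt_qq a (hG.da
        (Rc_mono (by linarith) (by linarith) (hline x z.im hx himpos.le le_rfl)))))
      (fun x hx => hasDerivAt_line (Q := fun w => Complex.I * a * w / (2 * π) + Complex.I +
        deriv G w) (hG.hasDerivAt_dqq a
        (Rc_mono (by linarith) (by linarith) (hline x z.im hx himpos.le le_rfl))))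
      (fun x hx => by
        show (Complex.I * a / (2 * π) + deriv (deriv G) (x + z.im * Complex.I)).re ≤ -c
        rw [Complex.add_re, re_I_a, zero_add]
        exact hG.d2 _ (hline x z.im hx himpos.le le_rfl))
      hre (by
        show (Complex.I * a * ((z.re : ℂ) + z.im * Complex.I) / (2 * π) + Complex.I +
          deriv G (z.re + z.im * Complex.I)).re = 0
        rw [hzri, hcr', Complex.zero_re]) hx
    simp only [hzri] at h1
    exact h1
  -- the real axis
  have hR : ∀ x : ℝ, |x| ≤ ρ → (G x).re ≤ (G 0).re - c / 2 * x ^ 2 := by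
    intro x hx
    have hr2 : ∀ x : ℝ, |x| ≤ ρ → (x : ℂ) + (0 : ℝ) * Complex.I ∈ Rc (2 * ρ) (2 * τ) :=
      fun x hx => hline x 0 hx le_rfl himpos.le
    have h1 := quad_bound (f := fun x : ℝ => (G (x + (0 : ℝ) * Complex.I)).re)
      (f' := fun x : ℝ => (deriv G (x + (0 : ℝ) * Complex.I)).re)
      (f'' := fun x : ℝ => (deriv (deriv G) (x + (0 : ℝ) * Complex.I)).re) (r := ρ) (c := c)
      (x0 := 0)
      (fun x hx => hasDerivAt_line
        (hG.da (Rc_mono (by linarith) (by linarith) (hr2 x hx))).hasDerivAt)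
      (fun x hx => hasDerivAt_line
        (hG.dda (Rc_mono (by linarith) (by linarith) (hr2 x hx))).hasDerivAt)
      (fun x hx => hG.d2 _ (hr2 x hx)) (by simpa using hρ0.le)
      (by
        show (deriv G ((0 : ℝ) + (0 : ℝ) * Complex.I)).re = 0
        simp [hG.d0 hρ0 hτ]) hx
    simpa using h1
  have hside : ∀ σ y : ℝ, |σ| = ρ → 0 ≤ y → y ≤ z.im →
      (qq a G (σ + y * Complex.I)).re < (qq a G z).re := by
    intro σ y hσ hy hy'
    have hσ2 : σ ^ 2 = ρ ^ 2 := by rw [← sq_abs, hσ]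
    have h1 : (qq a G (σ + y * Complex.I)).re =
        -(A * σ * y) - y + (G (σ + y * Complex.I)).re := by
      have e3 : qq a G (σ + y * Complex.I) = Complex.I * A * (σ + y * Complex.I) ^ 2 / 2 +
          Complex.I * (σ + y * Complex.I) + G (σ + y * Complex.I) := by
        unfold qq
        rw [hA]
        push_cast
        ring
      have e4 : Complex.I * A * ((σ : ℂ) + y * Complex.I) ^ 2 / 2 +
          Complex.I * (σ + y * Complex.I) = ((-(A * σ * y) - y : ℝ) : ℂ) +
            ((A * (σ ^ 2 - y ^ 2) / 2 + σ : ℝ) : ℂ) * Complex.I := by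
        push_cast
        linear_combination ((A : ℂ) * σ * y + (y : ℂ) + (A : ℂ) * (y : ℂ) ^ 2 * Complex.I / 2) * hI2
      rw [e3, e4, Complex.add_re, Complex.add_re, Complex.ofReal_re, Complex.re_ofReal_mul,
        Complex.I_re, mul_zero, add_zero]
    have hm0 : (σ : ℂ) + (0 : ℝ) * Complex.I ∈ Rc (2 * ρ) (2 * τ) :=
      hline σ 0 hσ.le le_rfl himpos.le
    have hm1 : (σ : ℂ) + y * Complex.I ∈ Rc (2 * ρ) (2 * τ) := hline σ y hσ.le hy hy'
    -- |G(σ + iy) - G(σ)| ≤ C y
    have h2 : ‖G (σ + y * Complex.I) - G σ‖ ≤ C * y := by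
      have h3 := Convex.norm_image_sub_le_of_norm_deriv_le (𝕜 := ℂ) (f := G) (C := C)
        (s := Rc (2 * ρ) (2 * τ)) (x := (σ : ℂ)) (y := (σ : ℂ) + y * Complex.I)
        (fun x hx => hG.da (Rc_mono (by linarith) (by linarith) hx))
        (fun x hx => (hG.d1 hρ0 hτ hx).trans (by
          have h4 : ‖x‖ ≤ 1 := by
            have h5 := Complex.norm_le_abs_re_add_abs_im x
            have h6 := hx.1
            have h7 := hx.2
            linarith
          nlinarith))
        (convex_Rc _ _) (by simpa using hm0) hm1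
      refine h3.trans (le_of_eq ?_)
      rw [add_sub_cancel_left, norm_mul, Complex.norm_I, Complex.norm_real, Real.norm_eq_abs,
        abs_of_nonneg hy, mul_one]
    have h4 : (G (σ + y * Complex.I)).re ≤ (G σ).re + C * y := by
      have h5 := (Complex.re_le_norm (G (σ + y * Complex.I) - G σ)).trans h2
      rw [Complex.sub_re] at h5
      linarith
    have h5 := hR σ hσ.le
    rw [hσ2] at h5
    have h6 : (G 0).re - 5 / |A| ≤ (qq a G z).re := by
      have h7 := (Complex.abs_re_le_norm (qq a G z - G 0)).trans hval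
      rw [Complex.sub_re, abs_le] at h7
      linarith [h7.1]
    have h8 : -(A * σ * y) ≤ |A| * ρ * y := by
      have h9 := neg_abs_le (A * σ * y)
      rw [abs_mul, abs_mul, hσ, abs_of_nonneg hy] at h9
      linarith
    have h9 : |A| * ρ * y ≤ C / |A| := by
      calc |A| * ρ * y ≤ |A| * (1 / 4) * (4 * C / |A| ^ 2) := by
            gcongr
            exact hy'.trans himA
        _ = C / |A| := by field_simp
    have h10 : C * y ≤ C / |A| := by
      calc C * y ≤ C * (1 / |A|) := by gcongr; exact hy'.trans himA1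
        _ = C / |A| := by ring
    have h11 : (4 * C + 10) / |A| = 2 * (C / |A| + C / |A| + 5 / |A|) := by ring
    rw [h1]
    nlinarith
  refine ⟨hz1, him1, hcl, ⟨?_, ?_, ?_, ?_, ?_⟩, hval⟩
  · intro h
    rw [Complex.sin_eq_zero_iff] at h
    obtain ⟨k, hk⟩ := h
    have : z.im = 0 := by
      rw [hk]
      have : ((k : ℂ) * π) = ((k * π : ℝ) : ℂ) := by push_cast; ring
      rw [this, Complex.ofReal_im]
    linarith
  · rw [hG.deriv_qq a hz3]; exact hcr'
  · rw [hG.deriv2_qq a hz3, Complex.add_re, re_I_a, zero_add]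
    linarith [hG.d2 z hz2]
  · intro x hx hxne
    refine (hL x hx).trans_lt ?_
    have : 0 < (x - z.re) ^ 2 := by
      have := sub_ne_zero.2 hxne
      positivity
    nlinarith
  · intro y hy hy'
    refine ⟨hside ρ y (abs_of_pos hρ0) hy hy', ?_⟩
    have := hside (-ρ) y (by rw [abs_neg, abs_of_pos hρ0]) hy hy'
    simpa using this

end Pool.Agent.W293.HT
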