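import Mathlib
import Pool.Agent.W293.HT.CP2

/-!
Existence and properties of the critical points: S_FIX → S_CP (helper711's project HT).
-/

set_option autoImplicit false

namespace Pool.Agent.W293.HT

open Filter Topology Metric Set Pool.Agent.W711.HT
open scoped Real

/-- second derivative of a sum -/
theorem dd_add {U : Set ℂ} (hU : IsOpen U) {f g : ℂ → ℂ} (hf : DifferentiableOn ℂ f U)
    (hg : DifferentiableOn ℂ g U) {w : ℂ} (hw : w ∈ U) :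
    deriv (deriv fun z => f z + g z) w = deriv (deriv f) w + deriv (deriv g) w := by
  have h1 : deriv (fun z => f z + g z) =ᶠ[𝓝 w] fun z => deriv f z + deriv g z := by
    filter_upwards [hU.mem_nhds hw] with x hx
    exact deriv_fun_add (hf.differentiableAt (hU.mem_nhds hx))
      (hg.differentiableAt (hU.mem_nhds hx))
  rw [h1.deriv_eq]
  exact deriv_fun_add ((hf.deriv hU).differentiableAt (hU.mem_nhds hw))
    ((hg.deriv hU).differentiableAt (hU.mem_nhds hw))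

theorem dd_congr {U : Set ℂ} (hU : IsOpen U) {f g : ℂ → ℂ} (h : ∀ z ∈ U, f z = g z) {w : ℂ}
    (hw : w ∈ U) : deriv (deriv f) w = deriv (deriv g) w := by
  have h1 : f =ᶠ[𝓝 w] g := Filter.eventuallyEq_of_mem (hU.mem_nhds hw) h
  exact h1.deriv.deriv_eq

theorem d_congr {U : Set ℂ} (hU : IsOpen U) {f g : ℂ → ℂ} (h : ∀ z ∈ U, f z = g z) {w : ℂ}
    (hw : w ∈ U) : deriv f w = deriv g w := by
  have h1 : f =ᶠ[𝓝 w] g := Filter.eventuallyEq_of_mem (hU.mem_nhds hw) h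
  exact h1.deriv_eq

/-- second derivative of `k + t (f - l)` -/
theorem dd_aff (f : ℂ → ℂ) (t k l w : ℂ) :
    deriv (deriv fun z => k + t * (f z - l)) w = t * deriv (deriv f) w := by
  have h1 : (deriv fun z => k + t * (f z - l)) = fun z => t * deriv f z := by
    funext z
    rw [deriv_const_add, deriv_const_mul_field, deriv_sub_const]
  rw [h1, deriv_const_mul_field]

section

variable {ρ τ κ c : ℝ} {s dl : ℂ → ℂ → ℂ}

theorem s_diff1 (hK : KD ρ τ κ c s dl) {ψ : ℂ} (hψ : ψ ∈ Rc (3 * ρ) (3 * τ)) :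
    DifferentiableOn ℂ (fun w => s w ψ) (Rc (3 * ρ) (3 * τ)) := by
  intro w hw
  have h1 : DifferentiableAt ℂ (fun p : ℂ × ℂ => s p.1 p.2) (w, ψ) :=
    hK.san.differentiableAt (((isOpen_Rc _ _).prod (isOpen_Rc _ _)).mem_nhds ⟨hw, hψ⟩)
  have h2 : DifferentiableAt ℂ (fun w : ℂ => (w, ψ)) w := by fun_prop
  exact (DifferentiableAt.comp (g := fun p : ℂ × ℂ => s p.1 p.2) w h1 h2).differentiableWithinAt

theorem s_ev2 (hK : KD ρ τ κ c s dl) {w ψ : ℂ} (hw : w ∈ Rc (3 * ρ) (3 * τ))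
    (hψ : ψ ∈ Rc (3 * ρ) (3 * τ)) : s w (-ψ) = s w ψ := by
  rw [hK.sym w hw (-ψ) (neg_mem_Rc hψ), hK.ev ψ hψ w hw, hK.sym ψ hψ w hw]

/-- the bounds of the second derivatives -/
theorem gh_main (hK : KD ρ τ κ c s dl) {C₀ ε₀ : ℝ} (hε₁ : ε₀ ≤ 1)
    (hε₂ : ε₀ ≤ c * τ ^ 2 / 16)
    (hC₀ : ∀ ψ ∈ Rc (3 * ρ) (3 * τ), ∀ ψ' ∈ Rc (3 * ρ) (3 * τ), ‖s ψ ψ'‖ ≤ C₀)
    {t : ℝ} {F : ℂ → ℂ} (ht : t = 0 ∨ t = 1) (hF : DifferentiableOn ℂ F (Rc (3 * ρ) (3 * τ)))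
    (hev : ∀ ψ ∈ Rc (3 * ρ) (3 * τ), F (-ψ) = F ψ)
    (hcl : ∀ ψ ∈ Rc (3 * ρ) (3 * τ), ‖F ψ - F 0 - t * (s 0 ψ - s 0 0)‖ ≤ ε₀) :
    (∀ ψ ∈ Rc (3 * ρ) (3 * τ),
      GH ρ τ (c / 2) (8 * (1 + 3 * C₀) / τ ^ 2) (fun w => F w + s w ψ)) ∧
    (t = 1 → GH ρ τ (c / 2) (8 * (1 + 3 * C₀) / τ ^ 2) F) := by
  have hρ0 := hK.hρ.1
  have hτ0 := hK.hτ.1
  have hτρ := hK.hτ.2
  have hc := hK.hc
  have hU := isOpen_Rc (3 * ρ) (3 * τ)
  have h0 : (0 : ℂ) ∈ Rc (3 * ρ) (3 * τ) := zero_mem_Rc (by linarith) (by linarith)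
  have hC00 : 0 ≤ C₀ := (norm_nonneg _).trans (hC₀ 0 h0 0 h0)
  have hsub : Rc (2 * ρ) (2 * τ) ⊆ Rc (3 * ρ) (3 * τ) := Rc_mono (by linarith) (by linarith)
  have ht1 : |t| ≤ 1 := by rcases ht with h | h <;> simp [h]
  have ht0 : 0 ≤ t := by rcases ht with h | h <;> simp [h]
  -- F = (F 0 + t (s(., 0) - s 0 0)) + E
  set E : ℂ → ℂ := fun w => F w - F 0 - t * (s w 0 - s 0 0) with hE
  have hEd : DifferentiableOn ℂ E (Rc (3 * ρ) (3 * τ)) :=
    (hF.sub_const _).sub (((s_diff1 hK h0).sub_const _).const_mul _)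
  have hEb : ∀ w ∈ Rc (3 * ρ) (3 * τ), ‖E w‖ ≤ ε₀ := by
    intro w hw
    have := hcl w hw
    rwa [hK.sym 0 h0 w hw] at this
  have hFdd : ∀ w ∈ Rc (2 * ρ) (2 * τ), (deriv (deriv F) w).re ≤ -(t * c) + c / 2 := by
    intro w hw
    have e1 : deriv (deriv F) w = deriv (deriv fun z => (F 0 + t * (s z 0 - s 0 0)) + E z) w :=
      dd_congr hU (fun z _ => by simp only [hE]; ring) (hsub hw)
    have e2 := dd_add hU (f := fun z => F 0 + t * (s z 0 - s 0 0)) (g := E)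
      ((((s_diff1 hK h0).sub_const _).const_mul _).const_add _) hEd (hsub hw)
    rw [e1, e2, dd_aff, Complex.add_re, Complex.re_ofReal_mul]
    have e3 := hK.conc w (hsub hw) 0 h0
    have e4 := (Complex.re_le_norm _).trans (cauchy2 hτ0 hτρ hEd hEb hw)
    have e5 : 8 * ε₀ / τ ^ 2 ≤ c / 2 := by
      rw [div_le_iff₀ (by positivity)]
      linarith
    have e6 : t * (deriv (deriv fun z => s z 0) w).re ≤ t * (-c) :=
      mul_le_mul_of_nonneg_left e3 ht0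
    linarith
  have hFb : ∀ w ∈ Rc (3 * ρ) (3 * τ), ‖F w - F 0‖ ≤ 1 + 2 * C₀ := by
    intro w hw
    have e1 : F w - F 0 = (F w - F 0 - t * (s 0 w - s 0 0)) + t * (s 0 w - s 0 0) := by ring
    rw [e1]
    have e2 : ‖(t : ℂ) * (s 0 w - s 0 0)‖ ≤ 2 * C₀ := by
      rw [norm_mul, Complex.norm_real, Real.norm_eq_abs]
      have e3 : ‖s 0 w - s 0 0‖ ≤ C₀ + C₀ :=
        (norm_sub_le _ _).trans (add_le_add (hC₀ 0 h0 w hw) (hC₀ 0 h0 0 h0))
      nlinarith [norm_nonneg (s 0 w - s 0 0), abs_nonneg t]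
    refine (norm_add_le _ _).trans ?_
    linarith [hcl w hw]
  have hmono : 8 * (1 + 2 * C₀) / τ ^ 2 ≤ 8 * (1 + 3 * C₀) / τ ^ 2 := by
    gcongr
    linarith
  refine ⟨fun ψ hψ => ⟨?_, ?_, ?_, ?_⟩, fun h => ⟨hF, hev, ?_, ?_⟩⟩
  · exact hF.add (s_diff1 hK hψ)
  · intro w hw
    show F (-w) + s (-w) ψ = F w + s w ψ
    rw [hev w hw, hK.ev w hw ψ hψ]
  · intro w hw
    rw [dd_add hU hF (s_diff1 hK hψ) (hsub hw), Complex.add_re]
    have e1 := hFdd w hw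
    have e2 := hK.conc w (hsub hw) ψ hψ
    have e3 : 0 ≤ t * c := mul_nonneg ht0 hc.le
    linarith
  · intro w hw
    have e1 : deriv (deriv fun w => F w + s w ψ) w =
        deriv (deriv fun w => -F 0 + 1 * ((F w + s w ψ) - 0)) w := by
      rw [dd_aff, one_mul]
    rw [e1]
    refine cauchy2 hτ0 hτρ ?_ ?_ hw
    · exact (((hF.add (s_diff1 hK hψ)).sub_const _).const_mul _).const_add _
    · intro z hz
      have e2 : -F 0 + 1 * ((F z + s z ψ) - 0) = (F z - F 0) + s z ψ := by ring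
      rw [e2]
      refine (norm_add_le _ _).trans ?_
      linarith [hFb z hz, hC₀ z hz ψ hψ]
  · intro w hw
    have e1 := hFdd w hw
    rw [h] at e1
    linarith
  · intro w hw
    have e1 : deriv (deriv F) w = deriv (deriv fun w => -F 0 + 1 * (F w - 0)) w := by
      rw [dd_aff, one_mul]
    rw [e1]
    refine (cauchy2 (B := 1 + 2 * C₀) hτ0 hτρ ?_ ?_ hw).trans hmono
    · exact ((hF.sub_const _).const_mul _).const_add _
    · intro z hz
      have e2 : -F 0 + 1 * (F z - 0) = F z - F 0 := by ring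
      rw [e2]
      exact hFb z hz

/-- joint differentiability of `∂_w s(w, ψ)` -/
theorem ds_joint (hK : KD ρ τ κ c s dl) :
    DifferentiableOn ℂ (fun p : ℂ × ℂ => deriv (fun w => s w p.2) p.1)
      (Rc (3 * ρ) (3 * τ) ×ˢ Rc (3 * ρ) (3 * τ)) := by
  have hU := (isOpen_Rc (3 * ρ) (3 * τ)).prod (isOpen_Rc (3 * ρ) (3 * τ))
  have h1 := Pool.Agent.Helper540.differentiableOn_fderiv_apply hU hK.san ((1 : ℂ), (0 : ℂ))
  refine h1.congr ?_
  rintro ⟨w, ψ⟩ hp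
  have h2 : DifferentiableAt ℂ (fun p : ℂ × ℂ => s p.1 p.2) (w, ψ) :=
    hK.san.differentiableAt (hU.mem_nhds hp)
  have h3 : HasDerivAt (fun w : ℂ => (w, ψ)) ((1 : ℂ), (0 : ℂ)) w :=
    (hasDerivAt_id w).prodMk (hasDerivAt_const w ψ)
  exact (h2.hasFDerivAt.comp_hasDerivAt w h3).deriv

/-- the constants -/
theorem cpt_of {ρ τ c' C' C A : ℝ} {a : ℤ} {z : ℂ} (hA : A = a / (2 * π)) (ha : a ≠ 0)
    (hc' : 0 < c') (hC' : 0 < C') (hC : C = 1 / c' + 8 * π ^ 2 * C' + 10 * π) (h1 : z ∈ Rc ρ τ)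
    (h2 : c' / (4 * A ^ 2) ≤ z.im) (h3 : ‖z + 1 / A‖ ≤ 2 * C' / A ^ 2) : CPt C ρ τ a z := by
  have hpi := Real.pi_pos
  have hpi3 := Real.pi_gt_three
  have haR : (a : ℝ) ≠ 0 := by exact_mod_cast ha
  have ha2 : 0 < (a : ℝ) ^ 2 := by positivity
  have hCpos : 0 < C := by rw [hC]; positivity
  refine ⟨h1, ?_, ?_⟩
  · refine le_trans ?_ h2
    have e1 : c' / (4 * A ^ 2) = c' * π ^ 2 / (a : ℝ) ^ 2 := by
      rw [hA]; field_simp; norm_num
    rw [e1, div_le_div_iff₀ (by positivity) ha2, one_mul]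
    have e2 : 1 ≤ c' * π ^ 2 * C := by
      have e3 : 1 / c' ≤ C := by
        rw [hC]
        have : 0 ≤ 8 * π ^ 2 * C' + 10 * π := by positivity
        linarith
      have e4 : 1 ≤ c' * C := by
        rw [div_le_iff₀ hc'] at e3
        linarith
      have e5 : (1 : ℝ) ≤ π ^ 2 := by nlinarith
      have e6 : c' * π ^ 2 * C = (c' * C) * π ^ 2 := by ring
      rw [e6]
      nlinarith
    calc (a : ℝ) ^ 2 = 1 * (a : ℝ) ^ 2 := (one_mul _).symm
      _ ≤ (c' * π ^ 2 * C) * (a : ℝ) ^ 2 := by gcongr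
      _ = c' * π ^ 2 * (C * (a : ℝ) ^ 2) := by ring
  · have e1 : (1 / A : ℂ) = 2 * π / a := by
      have haC : (a : ℂ) ≠ 0 := by exact_mod_cast ha
      have hpC : (π : ℂ) ≠ 0 := by exact_mod_cast Real.pi_ne_zero
      rw [hA]
      push_cast
      field_simp
    rw [e1] at h3
    refine h3.trans ?_
    have e2 : 2 * C' / A ^ 2 = 8 * π ^ 2 * C' / (a : ℝ) ^ 2 := by
      rw [hA]; field_simp; norm_num
    rw [e2]
    gcongr
    rw [hC]
    have : 0 ≤ 1 / c' + 10 * π := by positivity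
    linarith

/-- the fixed point equation -/
theorem crit_of_fix {A : ℝ} (hA : A ≠ 0) {g z : ℂ} (h : -1 / A + Complex.I / A * g = z) :
    Complex.I * A * z + Complex.I + g = 0 := by
  have hAC : (A : ℂ) ≠ 0 := by exact_mod_cast hA
  have hI2 : Complex.I * Complex.I = -1 := Complex.I_mul_I
  rw [← h]
  field_simp
  linear_combination g * hI2

/-- the fixed point of one function -/
theorem phi_bound {ρ τ c' C' A : ℝ} {G : ℂ → ℂ} (hG : GH ρ τ c' C' G) (hτ : 0 < τ) (hτρ : τ ≤ ρ)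
    (hC' : 0 < C') (hA1 : 4 * C' ≤ |A|) (hA2 : 4 / |A| < τ) :
    (∀ w ∈ closedBall (0 : ℂ) (2 / |A|), ‖-1 / A + Complex.I / A * deriv G w‖ ≤ 2 / |A|) ∧
    (∀ w ∈ closedBall (0 : ℂ) (2 / |A|), ∀ w' ∈ closedBall (0 : ℂ) (2 / |A|),
      ‖(-1 / A + Complex.I / A * deriv G w) - (-1 / A + Complex.I / A * deriv G w')‖ ≤
        1 / 2 * ‖w - w'‖) := by
  have hρ : 0 < ρ := hτ.trans_le hτρ
  have hA0 : 0 < |A| := by linarith
  have h24 : 2 / |A| ≤ 4 / |A| := by gcongr; norm_num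
  have hm : ∀ w ∈ closedBall (0 : ℂ) (2 / |A|), w ∈ Rc (2 * ρ) (2 * τ) := by
    intro w hw
    rw [mem_closedBall_zero_iff] at hw
    exact Rc_mono (by linarith) (by linarith) (mem_Rc_of_norm hτρ (by linarith : ‖w‖ < τ))
  have hnI : ‖(Complex.I / A : ℂ)‖ = 1 / |A| := by
    rw [norm_div, Complex.norm_I, Complex.norm_real, Real.norm_eq_abs]
  refine ⟨fun w hw => ?_, fun w hw w' hw' => ?_⟩
  · have h1 := hG.d1 hρ hτ (hm w hw)
    rw [mem_closedBall_zero_iff] at hw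
    have h2 : ‖(-1 / A : ℂ)‖ = 1 / |A| := by
      rw [norm_div, norm_neg, norm_one, Complex.norm_real, Real.norm_eq_abs]
    calc _ ≤ ‖(-1 / A : ℂ)‖ + ‖Complex.I / A * deriv G w‖ := norm_add_le _ _
      _ = 1 / |A| + 1 / |A| * ‖deriv G w‖ := by rw [h2, norm_mul, hnI]
      _ ≤ 1 / |A| + 1 / |A| * 1 := by
          gcongr
          calc ‖deriv G w‖ ≤ C' * ‖w‖ := h1
            _ ≤ C' * (2 / |A|) := by gcongr
            _ = 2 * C' / |A| := by ring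
            _ ≤ 1 := by rw [div_le_one hA0]; linarith
      _ = 2 / |A| := by ring
  · have h1 := hG.lip hρ hτ (hm w' hw') (hm w hw)
    have e1 : (-1 / A + Complex.I / A * deriv G w) - (-1 / A + Complex.I / A * deriv G w') =
        Complex.I / A * (deriv G w - deriv G w') := by ring
    rw [e1, norm_mul, hnI]
    calc 1 / |A| * ‖deriv G w - deriv G w'‖ ≤ 1 / |A| * (C' * ‖w - w'‖) := by gcongr
      _ = C' / |A| * ‖w - w'‖ := by ring
      _ ≤ 1 / 2 * ‖w - w'‖ := by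
          have h2 : C' / |A| ≤ 1 / 2 := by
            rw [div_le_iff₀ hA0]
            linarith
          exact mul_le_mul_of_nonneg_right h2 (norm_nonneg _)

theorem cp (hFIX : S_FIX) : S_CP := by
  intro ρ τ κ c s dl hK
  obtain ⟨C₀, hC₀⟩ := hK.sbd
  have hρ0 := hK.hρ.1
  have hρ1 := hK.hρ.2
  have hτ0 := hK.hτ.1
  have hτρ := hK.hτ.2
  have hκ := hK.hκ.1
  have hc := hK.hc
  have hpi := Real.pi_pos
  have hU := isOpen_Rc (3 * ρ) (3 * τ)
  have h0 : (0 : ℂ) ∈ Rc (3 * ρ) (3 * τ) := zero_mem_Rc (by linarith) (by linarith)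
  have hC00 : 0 ≤ C₀ := (norm_nonneg _).trans (hC₀ 0 h0 0 h0)
  set c' : ℝ := c / 2 with hc'
  have hc'0 : 0 < c' := by positivity
  set C' : ℝ := 8 * (1 + 3 * C₀) / τ ^ 2 with hC'
  have hC'1 : 1 ≤ C' := by
    rw [hC', le_div_iff₀ (by positivity)]
    nlinarith
  have hC'0 : 0 < C' := by linarith
  set ε₀ : ℝ := min (min (κ / 16) (c * τ ^ 2 / 16)) 1 with hε₀
  have hε0 : 0 < ε₀ := lt_min (lt_min (by positivity) (by positivity)) one_pos
  have hε1 : ε₀ ≤ 1 := min_le_right _ _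
  have hε2 : ε₀ ≤ c * τ ^ 2 / 16 := (min_le_left _ _).trans (min_le_right _ _)
  have hε3 : ε₀ ≤ κ / 16 := (min_le_left _ _).trans (min_le_left _ _)
  set C : ℝ := 1 / c' + 8 * π ^ 2 * C' + 10 * π with hC
  have hC0 : 0 < C := by positivity
  set M : ℝ := 2 * π * (4 * C' + 5 / τ + (4 * C' + 11) / (c' * ρ ^ 2)) + 16 * C / κ +
    2 * C / ε₀ with hM
  have hM1 : 2 * π * (4 * C' + 5 / τ + (4 * C' + 11) / (c' * ρ ^ 2)) ≤ M := by
    have : 0 ≤ 16 * C / κ + 2 * C / ε₀ := by positivity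
    linarith
  have hM2 : 16 * C / κ ≤ M := by
    have : 0 ≤ 2 * π * (4 * C' + 5 / τ + (4 * C' + 11) / (c' * ρ ^ 2)) + 2 * C / ε₀ := by
      positivity
    linarith
  have hM3 : 2 * C / ε₀ ≤ M := by
    have : 0 ≤ 2 * π * (4 * C' + 5 / τ + (4 * C' + 11) / (c' * ρ ^ 2)) + 16 * C / κ := by
      positivity
    linarith
  have hM0 : 0 < M := lt_of_lt_of_le (by positivity) hM2
  refine ⟨ε₀, C, M, hε0, hε3, hC0, hM0, ?_, ?_⟩
  · rw [div_le_iff₀ hκ] at hM2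
    rw [div_le_iff₀ hM0]
    linarith
  intro t F ht hF hev hcl a ha
  obtain ⟨gh1, gh2⟩ := gh_main hK hε1 hε2 hC₀ ht hF hev hcl
  set A : ℝ := a / (2 * π) with hA
  have haR : 0 < |(a : ℝ)| := hM0.trans_le ha
  have ha0 : a ≠ 0 := by
    rintro rfl
    simp at haR
  have hAabs : |A| = |(a : ℝ)| / (2 * π) := by
    rw [hA, abs_div, abs_of_pos (by positivity : (0 : ℝ) < 2 * π)]
  have hAge : 4 * C' + 5 / τ + (4 * C' + 11) / (c' * ρ ^ 2) ≤ |A| := by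
    rw [hAabs, le_div_iff₀ (by positivity)]
    linarith
  have hA0 : 0 < |A| := lt_of_lt_of_le (by positivity) hAge
  have hAne : A ≠ 0 := abs_pos.1 hA0
  have hA1 : 4 * C' ≤ |A| := by
    have : 0 ≤ 5 / τ + (4 * C' + 11) / (c' * ρ ^ 2) := by positivity
    linarith
  have hA2 : 4 / |A| < τ := by
    have h1 : 5 / τ ≤ |A| := by
      have : 0 ≤ 4 * C' + (4 * C' + 11) / (c' * ρ ^ 2) := by positivity
      linarith
    rw [div_le_iff₀ hτ0] at h1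
    rw [div_lt_iff₀ hA0]
    linarith
  have hA3 : (4 * C' + 10) / |A| < c' * ρ ^ 2 := by
    have h1 : (4 * C' + 11) / (c' * ρ ^ 2) ≤ |A| := by
      have : 0 ≤ 4 * C' + 5 / τ := by positivity
      linarith
    rw [div_le_iff₀ (by positivity)] at h1
    rw [div_lt_iff₀ hA0]
    linarith
  have h5A : 5 / |A| ≤ C / |(a : ℝ)| := by
    rw [hAabs, div_div_eq_mul_div]
    gcongr
    rw [hC]
    have : 0 ≤ 1 / c' + 8 * π ^ 2 * C' := by positivity
    linarith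
  have hbsub : ball (0 : ℂ) (2 * (2 / |A|)) ⊆ Rc (3 * ρ) (3 * τ) := by
    intro w hw
    rw [mem_ball_zero_iff] at hw
    have : 2 * (2 / |A|) = 4 / |A| := by ring
    exact Rc_mono (by linarith) (by linarith) (mem_Rc_of_norm hτρ (by linarith : ‖w‖ < τ))
  have hcbsub : closedBall (0 : ℂ) (2 / |A|) ⊆ Rc (3 * ρ) (3 * τ) := by
    refine Subset.trans (closedBall_subset_ball ?_) hbsub
    have : 0 < 2 / |A| := by positivity
    linarith
  have hRsub : Rc ρ τ ⊆ Rc (3 * ρ) (3 * τ) := Rc_mono (by linarith) (by linarith)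
  have hsum : ∀ ψ ∈ Rc (3 * ρ) (3 * τ), ∀ w ∈ Rc (3 * ρ) (3 * τ),
      deriv (fun w => F w + s w ψ) w = deriv F w + deriv (fun w => s w ψ) w := by
    intro ψ hψ w hw
    exact deriv_fun_add (hF.differentiableAt (hU.mem_nhds hw))
      ((s_diff1 hK hψ).differentiableAt (hU.mem_nhds hw))
  refine ⟨?_, ?_⟩
  · obtain ⟨zs, hzd, hz⟩ := hFIX
      (fun w ψ => -1 / A + Complex.I / A * (deriv F w + deriv (fun w => s w ψ) w))
      (2 / |A|) (Rc (3 * ρ) (3 * τ)) (by positivity) hU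
      (by
        have e1 : DifferentiableOn ℂ (fun p : ℂ × ℂ => deriv F p.1)
            (ball 0 (2 * (2 / |A|)) ×ˢ Rc (3 * ρ) (3 * τ)) :=
          (hF.deriv hU).comp differentiableOn_fst (fun p hp => hbsub hp.1)
        have e2 := (ds_joint hK).mono (prod_mono_left (t := Rc (3 * ρ) (3 * τ)) hbsub)
        exact ((e1.add e2).const_mul _).const_add _)
      (fun w hw ψ hψ => by
        have e1 := (phi_bound (gh1 ψ hψ) hτ0 hτρ hC'0 hA1 hA2).1 w hw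
        rwa [hsum ψ hψ w (hcbsub hw)] at e1)
      (fun w hw w' hw' ψ hψ => by
        have e1 := (phi_bound (gh1 ψ hψ) hτ0 hτρ hC'0 hA1 hA2).2 w hw w' hw'
        rwa [hsum ψ hψ w (hcbsub hw), hsum ψ hψ w' (hcbsub hw')] at e1)
    have hz3 : ∀ ψ ∈ Rc (3 * ρ) (3 * τ), zs ψ ∈ Rc (3 * ρ) (3 * τ) := fun ψ hψ =>
      hcbsub (mem_closedBall_zero_iff.2 (hz ψ hψ).1)
    have hcr : ∀ ψ ∈ Rc (3 * ρ) (3 * τ),
        Complex.I * A * zs ψ + Complex.I + (deriv F (zs ψ) + deriv (fun w => s w ψ) (zs ψ)) = 0 :=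
      fun ψ hψ => crit_of_fix hAne (hz ψ hψ).2.1
    have hprops : ∀ ψ ∈ Rc (3 * ρ) (3 * τ), _ := fun ψ hψ =>
      crit_props (gh1 ψ hψ) hτ0 hτρ hρ1 hc'0 hC'1 a A hA hA1 hA2 hA3 (zs ψ) (hz ψ hψ).1
        (by rw [hsum ψ hψ _ (hz3 ψ hψ)]; exact hcr ψ hψ)
    have hcr' : ∀ ψ ∈ Rc (3 * ρ) (3 * τ), Complex.I * a * zs ψ / (2 * π) + Complex.I +
        deriv F (zs ψ) + deriv (fun w => s w ψ) (zs ψ) = 0 := by
      intro ψ hψ
      rw [← hcr ψ hψ, hA]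
      push_cast
      ring
    have hFp : ∀ ψ ∈ Rc (3 * ρ) (3 * τ),
        HasDerivAt (fun ψ => qq a F (zs ψ) + s (zs ψ) ψ) (deriv (fun w => s (zs ψ) w) ψ) ψ := by
      intro ψ hψ
      have hzψ := hz3 ψ hψ
      have e1 : HasDerivAt zs (deriv zs ψ) ψ :=
        (hzd.differentiableAt (hU.mem_nhds hψ)).hasDerivAt
      have e2 : HasDerivAt (fun ψ => qq a F (zs ψ))
          ((Complex.I * a * zs ψ / (2 * π) + Complex.I + deriv F (zs ψ)) * deriv zs ψ) ψ :=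
        HasDerivAt.comp ψ (hasDerivAt_qq a (hF.differentiableAt (hU.mem_nhds hzψ))) e1
      have e3 : DifferentiableAt ℂ (fun p : ℂ × ℂ => s p.1 p.2) (zs ψ, ψ) :=
        hK.san.differentiableAt ((hU.prod hU).mem_nhds ⟨hzψ, hψ⟩)
      have e4 : HasDerivAt (fun ψ => s (zs ψ) ψ)
          (fderiv ℂ (fun p : ℂ × ℂ => s p.1 p.2) (zs ψ, ψ) (deriv zs ψ, 1)) ψ :=
        HasFDerivAt.comp_hasDerivAt (l := fun p : ℂ × ℂ => s p.1 p.2) (f := fun ψ => (zs ψ, ψ)) ψ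
          e3.hasFDerivAt (e1.prodMk (hasDerivAt_id ψ))
      have e5 : fderiv ℂ (fun p : ℂ × ℂ => s p.1 p.2) (zs ψ, ψ) (1, 0) =
          deriv (fun w => s w ψ) (zs ψ) :=
        ((e3.hasFDerivAt.comp_hasDerivAt (zs ψ)
          ((hasDerivAt_id (zs ψ)).prodMk (hasDerivAt_const (zs ψ) ψ))).deriv).symm
      have e6 : fderiv ℂ (fun p : ℂ × ℂ => s p.1 p.2) (zs ψ, ψ) (0, 1) =
          deriv (fun w => s (zs ψ) w) ψ :=
        ((e3.hasFDerivAt.comp_hasDerivAt ψ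
          ((hasDerivAt_const ψ (zs ψ)).prodMk (hasDerivAt_id ψ))).deriv).symm
      have e7 : ((deriv zs ψ, 1) : ℂ × ℂ) = deriv zs ψ • ((1, 0) : ℂ × ℂ) + (0, 1) := by
        ext <;> simp
      refine (e2.add e4).congr_deriv ?_
      rw [e7, map_add, map_smul, e5, e6, smul_eq_mul]
      linear_combination (deriv zs ψ) * (hcr' ψ hψ)
    have hest : ∀ ψ ∈ Rc (3 * ρ) (3 * τ),
        ‖(qq a F (zs ψ) + s (zs ψ) ψ) - F 0 - s 0 ψ‖ ≤ C / |(a : ℝ)| := by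
      intro ψ hψ
      have e1 := (hprops ψ hψ).2.2.2.2
      have e2 : qq a (fun w => F w + s w ψ) (zs ψ) - (F 0 + s 0 ψ) =
          (qq a F (zs ψ) + s (zs ψ) ψ) - F 0 - s 0 ψ := by
        unfold qq
        ring
      rw [← e2]
      exact e1.trans h5A
    refine ⟨fun ψ => qq a F (zs ψ) + s (zs ψ) ψ, zs, ?_, ?_, ?_, hest, ?_⟩
    · intro ψ hψ
      exact (hFp ψ hψ).differentiableAt.differentiableWithinAt
    · intro ψ hψ
      have hψ' := neg_mem_Rc hψ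
      have e1 : zs (-ψ) = zs ψ := by
        refine (hz ψ hψ).2.2 _ (hz (-ψ) hψ').1 ?_
        have e2 := (hz (-ψ) hψ').2.1
        have e3 : deriv (fun w => s w (-ψ)) (zs (-ψ)) = deriv (fun w => s w ψ) (zs (-ψ)) :=
          d_congr hU (fun w hw => s_ev2 hK hw hψ) (hz3 (-ψ) hψ')
        simp only [e3] at e2
        exact e2
      show qq a F (zs (-ψ)) + s (zs (-ψ)) (-ψ) = qq a F (zs ψ) + s (zs ψ) ψ
      rw [e1, s_ev2 hK (hz3 ψ hψ) hψ]
    · intro ψ hψ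
      have e1 := hest ψ hψ
      have e2 := hest 0 h0
      have e3 : (qq a F (zs ψ) + s (zs ψ) ψ) - (qq a F (zs 0) + s (zs 0) 0) -
          1 * (s 0 ψ - s 0 0) = ((qq a F (zs ψ) + s (zs ψ) ψ) - F 0 - s 0 ψ) -
            ((qq a F (zs 0) + s (zs 0) 0) - F 0 - s 0 0) := by ring
      show ‖(qq a F (zs ψ) + s (zs ψ) ψ) - (qq a F (zs 0) + s (zs 0) 0) -
          1 * (s 0 ψ - s 0 0)‖ ≤ ε₀
      rw [e3]
      refine (norm_sub_le _ _).trans ?_
      have e4 : 2 * C / ε₀ ≤ |(a : ℝ)| := hM3.trans ha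
      rw [div_le_iff₀ hε0] at e4
      have e5 : C / |(a : ℝ)| ≤ ε₀ / 2 := by
        rw [div_le_iff₀ haR]
        linarith
      linarith
    · intro ψ hψ
      obtain ⟨p1, p2, p3, p4, p5⟩ := hprops ψ hψ
      exact ⟨cpt_of hA ha0 hc'0 hC'0 hC p1 p2 p3, p4, hcr' ψ hψ, rfl, hFp ψ hψ⟩
  · intro ht1
    have g := gh2 ht1
    obtain ⟨zs, -, hz⟩ := hFIX (fun w _ => -1 / A + Complex.I / A * deriv F w)
      (2 / |A|) (Rc (3 * ρ) (3 * τ)) (by positivity) hU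
      (by
        have e1 : DifferentiableOn ℂ (fun p : ℂ × ℂ => deriv F p.1)
            (ball 0 (2 * (2 / |A|)) ×ˢ Rc (3 * ρ) (3 * τ)) :=
          (hF.deriv hU).comp differentiableOn_fst (fun p hp => hbsub hp.1)
        exact (e1.const_mul _).const_add _)
      (fun w hw ψ hψ => (phi_bound g hτ0 hτρ hC'0 hA1 hA2).1 w hw)
      (fun w hw w' hw' ψ hψ => (phi_bound g hτ0 hτρ hC'0 hA1 hA2).2 w hw w' hw')
    obtain ⟨hz1, hz2, -⟩ := hz 0 h0
    have hcr := crit_of_fix hAne hz2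
    obtain ⟨p1, p2, p3, p4, p5⟩ := crit_props g hτ0 hτρ hρ1 hc'0 hC'1 a A hA hA1 hA2 hA3 (zs 0)
      hz1 hcr
    refine ⟨zs 0, cpt_of hA ha0 hc'0 hC'0 hC p1 p2 p3, p4, ?_, p5.trans h5A⟩
    refine Eq.trans ?_ hcr
    rw [hA]
    push_cast
    ring

end

end Pool.Agent.W293.HT

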